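import Pool.Agent.H.MP_eb20fa_an.B

set_option autoImplicit false
namespace Pool.Agent.Results.MP_eb20fa_an.Char
open MeasureTheory Metric Filter Topology Set ContinuousLinearMap ComplexConjugate

/-- The Hardy space, as square summable Taylor coefficient sequences. -/
noncomputable abbrev H2 := lp (fun _ : ℕ => ℂ) 2

/-- The value at `z` of the function with Taylor coefficients `a`. -/
noncomputable def ev (a : H2) (z : ℂ) : ℂ := ∑' k, a k * z ^ k

section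
variable (V : Type) [NormedAddCommGroup V] [InnerProductSpace ℂ V] [CompleteSpace V]
  (e : V → ℂ → ℂ) (φ : ℂ → ℂ)

/-- `M` is multiplication by `z` and `C` is composition with `φ`. -/
def Ops (M C : V →L[ℂ] V) : Prop := ∀ a : V, ∀ z ∈ ball (0 : ℂ) 1,
  e (M a) z = z * e a z ∧ e (C a) z = e a (φ z)

/-- The `n`-th term of the Toeplitz sequence of `T`. -/
noncomputable def tz (M T : V →L[ℂ] V) (n : ℕ) : V →L[ℂ] V := adjoint M ^ n * T * M ^ n

/-- The adjoint of `C` times `C`. -/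
noncomputable def gram (C : V →L[ℂ] V) : V →L[ℂ] V := adjoint C * C

/-- Uniformly asymptotically Toeplitz. -/
def UAT (M T : V →L[ℂ] V) : Prop :=
  ∃ A : V →L[ℂ] V, Tendsto (fun n => ‖tz V M T n - A‖) atTop (𝓝 0)

/-- The two operators exist, and `gram C` is UAT exactly when `P` holds. -/
def UatIff (P : Prop) : Prop :=
  (∃ M C, Ops V e φ M C) ∧ ∀ M C, Ops V e φ M C → (UAT V M (gram V C) ↔ P)
end

/-- The values of `φ` on the radius ending at `exp (2 π i t)`. -/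
noncomputable def rad (φ : ℂ → ℂ) (t : UnitAddCircle) (r : ℝ) : ℂ := φ (r * fourier 1 t)

/-- The radial boundary function. -/
noncomputable def bv (φ : ℂ → ℂ) (t : UnitAddCircle) : ℂ := limUnder (𝓝[<] 1) (rad φ t)

theorem result (φ : ℂ → ℂ) (hd : DifferentiableOn ℂ φ (ball 0 1))
    (hm : MapsTo φ (ball 0 1) (ball 0 1)) :
    (∀ᵐ t, Tendsto (rad φ t) (𝓝[<] 1) (𝓝 (bv φ t))) ∧
    UatIff H2 ev φ (∀ ε > 0, ∃ ρ < 1, ∀ a : ℂ, ρ ≤ ‖a‖ → ‖a‖ < 1 →
      ∫ t in {t | ‖bv φ t‖ < 1}, (1 - ‖a‖ ^ 2) / ‖1 - conj a * bv φ t‖ ^ 2 ≤ ε) := by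
  have h1 : ∀ z : ℂ, ‖z‖ < 1 → ‖φ z‖ < 1 := fun z hz =>
    mem_ball_zero_iff.1 (hm (mem_ball_zero_iff.2 hz))
  obtain ⟨M, hM⟩ := H.MP_a5725d_an.exM
  obtain ⟨C, hC⟩ := H.MP_a5725d_an.exC hd h1
  obtain ⟨g, g1, g2⟩ := H.MP_496271_an.bval hd fun z hz => (h1 z (mem_ball_zero_iff.1 hz)).le
  have m := g1.1.1.measurable_mk
  set k := {t | ‖g1.1.1.mk g t‖ ≤ 1}.indicator (g1.1.1.mk g)
  have k1 : ∀ᵐ t ∂H.MP_ceba03_an.μ, Tendsto (rad φ t) (𝓝[<] 1) (𝓝 (k t)) := by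
    filter_upwards [H.MP_496271_an.fatou g1, g1.1.1.ae_eq_mk, g1.1.2] with t a b c
    rw [show k t = g t from (indicator_of_mem (by rwa [mem_setOf_eq, ← b]) _).trans b.symm]
    exact a.congr' (Eventually.mono (Ioo_mem_nhdsLT one_pos) fun r hr =>
      g2 _ (mem_ball_zero_iff.2 ((H.MP_a5725d_an.rn hr t).trans_lt hr.2)))
  have k2 : k =ᵐ[H.MP_ceba03_an.μ] bv φ := k1.mono fun t ht => ht.limUnder_eq.symm
  rw [H.MP_a5725d_an.hv]
  refine ⟨(k1.and k2).mono fun t ht => ht.2 ▸ ht.1,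
    ⟨M, C, fun a z hz => ⟨hM a z (mem_ball_zero_iff.1 hz), hC a z (mem_ball_zero_iff.1 hz)⟩⟩,
    fun M C h => (exists_congr fun A => tendsto_iff_norm_sub_tendsto_zero.symm).trans
      ((H.MP_eb20fa_an.main h1 (m.indicator (measurableSet_le m.norm measurable_const)) (fun t => ?_)
        k1 (fun a z hz => (h a z (mem_ball_zero_iff.2 hz)).1)
        fun a z hz => (h a z (mem_ball_zero_iff.2 hz)).2).trans ?_)⟩
  · by_cases h : t ∈ {t | ‖g1.1.1.mk g t‖ ≤ 1}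
    · rwa [indicator_of_mem h]
    · simp [indicator_of_notMem h]
  have e : ∀ a : ℂ, ∫ t in {t | ‖k t‖ < 1}, H.MP_eb20fa_an.kk a (k t) ∂H.MP_ceba03_an.μ =
      ∫ t in {t | ‖bv φ t‖ < 1}, (1 - ‖a‖ ^ 2) / ‖1 - conj a * bv φ t‖ ^ 2 ∂H.MP_ceba03_an.μ :=
    fun a => by
      rw [setIntegral_congr_set (t := {t | ‖bv φ t‖ < 1}) (k2.mono fun t ht => by
        change (‖k t‖ < 1) = _; rw [ht]; rfl)]
      exact integral_congr_ae ((ae_restrict_of_ae k2).mono fun t ht => by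
        simp only [ht]; rfl)
  simp only [← e]
  rfl

end Pool.Agent.Results.MP_eb20fa_an.Char
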